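import Pool.Agent.W809.CI.Stm

/-!
Project CI (helper809), part EXT: periodic extension of a continuous family.
-/

set_option autoImplicit false

open Set Filter Topology

namespace Pool.Agent.W696.CI

open Pool.Agent.W809.CI

theorem ext : S_PT → S_EXT := by
  intro hPT Y _ p hp f hf hper
  obtain ⟨hb, -, hbb, -⟩ := hPT
  have hp' : (0 : ℝ) < p := by exact_mod_cast hp
  let A : ℤ → Set (Y × ℝ) := fun m => {q | (p : ℝ) * m ≤ q.2 ∧ q.2 ≤ (p : ℝ) * (m + 1)}
  have hcl : ∀ m, IsClosed (A m) := by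
    intro m
    exact (isClosed_le continuous_const continuous_snd).inter
      (isClosed_le continuous_snd continuous_const)
  have hcov : ⋃ m, A m = univ := by
    refine Set.eq_univ_of_forall fun q => Set.mem_iUnion.2 ⟨⌊q.2 / p⌋, ?_, ?_⟩
    · have h1 := Int.floor_le (q.2 / (p : ℝ))
      rw [le_div_iff₀ hp'] at h1
      linarith
    · have h1 := (Int.lt_floor_add_one (q.2 / (p : ℝ))).le
      rw [div_le_iff₀ hp'] at h1
      linarith
  have hlf : LocallyFinite A := by
    intro q0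
    refine ⟨{q | q0.2 - p < q.2 ∧ q.2 < q0.2 + p}, ?_, ?_⟩
    · refine IsOpen.mem_nhds ((isOpen_lt continuous_const continuous_snd).inter
        (isOpen_lt continuous_snd continuous_const)) ⟨?_, ?_⟩
      · show q0.2 - p < q0.2
        linarith
      · show q0.2 < q0.2 + p
        linarith
    · refine (Set.finite_Icc (⌊q0.2 / p⌋ - 3) (⌊q0.2 / p⌋ + 3)).subset ?_
      rintro m ⟨q, ⟨h1, h2⟩, h3, h4⟩
      have h5 := Int.floor_le (q0.2 / (p : ℝ))
      have h6 := Int.lt_floor_add_one (q0.2 / (p : ℝ))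
      rw [le_div_iff₀ hp'] at h5
      rw [div_lt_iff₀ hp'] at h6
      have h7 : (p : ℝ) * m < p * ((⌊q0.2 / (p : ℝ)⌋ : ℝ) + 2) := by nlinarith
      have h8 : (p : ℝ) * ((⌊q0.2 / (p : ℝ)⌋ : ℝ) - 2) < p * m := by nlinarith
      have h9 := lt_of_mul_lt_mul_left h7 hp'.le
      have h10 := lt_of_mul_lt_mul_left h8 hp'.le
      have h11 : m < ⌊q0.2 / (p : ℝ)⌋ + 2 := by exact_mod_cast h9
      have h12 : ⌊q0.2 / (p : ℝ)⌋ - 2 < m := by exact_mod_cast h10
      exact ⟨by omega, by omega⟩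
  refine hlf.continuous hcov hcl fun m => ?_
  have hF : Continuous (fun q : Y × ℝ => beta (p * m) (f q.1 (q.2 - p * m))) := by
    refine (hb _).comp ?_
    exact hf.comp (continuous_fst.prodMk (continuous_snd.sub continuous_const))
  refine hF.continuousOn.congr ?_
  rintro ⟨y, t⟩ ⟨h1, h2⟩
  change (p : ℝ) * m ≤ t at h1
  change t ≤ (p : ℝ) * (m + 1) at h2
  show beta (p * ⌊t / p⌋) (f y (t - p * ⌊t / p⌋)) = beta (p * m) (f y (t - p * m))
  rcases h2.lt_or_eq with h3 | h3
  · have : ⌊t / (p : ℝ)⌋ = m := by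
      rw [Int.floor_eq_iff, le_div_iff₀ hp', div_lt_iff₀ hp']
      constructor <;> linarith
    rw [this]
  · have : ⌊t / (p : ℝ)⌋ = m + 1 := by
      rw [Int.floor_eq_iff, le_div_iff₀ hp', div_lt_iff₀ hp']
      push_cast
      constructor <;> nlinarith
    rw [this, h3]
    have e1 : (p : ℝ) * (m + 1) - p * ((m + 1 : ℤ) : ℝ) = 0 := by push_cast; ring
    have e2 : (p : ℝ) * (m + 1) - p * m = p := by ring
    have e3 : (p : ℤ) * (m + 1) = p * m + p := by ring
    rw [e1, e2, e3, hper, hbb]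

end Pool.Agent.W696.CI
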